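import Mathlib

namespace Pool.Agent.Results.MP_6ac782_lc.SymmTrans

open Filter Set

/-- `u ≡_w v`: every divisibility-upward closed set of `w` belongs to `u ⊖ v` -/
def Cong (w u v : Ultrafilter ℤ) : Prop :=
  ∀ A ∈ w, (∀ a ∈ A, ∀ b, a ∣ b → b ∈ A) → {x | {y | x + y ∈ A} ∈ v.map Neg.neg} ∈ u

lemma cong_iff {w u v : Ultrafilter ℤ} : Cong w u v ↔ ∀ A ∈ w, (∀ a ∈ A, ∀ b, a ∣ b → b ∈ A) →
    ∀ᶠ x in (u : Filter ℤ), ∀ᶠ y in (v : Filter ℤ), x - y ∈ A := by
  simp only [Cong, sub_eq_add_neg]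
  rfl

/-- avoiding fewer than `p` residues -/
lemma avoid {p e : ℕ} (hp : p.Prime) {a : ℤ} (ha : ¬ (p : ℤ) ^ e ∣ a) (b : ℤ) (S : Finset ℤ)
    (hS : S.card < p) : ∃ i : ℤ, ∀ s ∈ S, ¬ (p : ℤ) ^ e ∣ a * i + b - s := by
  by_contra h
  push Not at h
  choose f h1 h2 using h
  obtain ⟨i, hi, j, hj, ne, e'⟩ := Finset.exists_ne_map_eq_of_card_lt_of_maps_to
    (s := Finset.range p) (t := S) (f := fun i => f i) (by simpa) fun i _ => h1 i
  have h3 := dvd_sub (h2 i) (h2 j)
  rw [show f i = f j from e', show a * i + b - f j - (a * j + b - f j) = a * (i - j) by ring] at h3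
  refine ha (IsCoprime.dvd_of_dvd_mul_right (IsCoprime.pow_left ?_) h3)
  refine ((Nat.prime_iff_prime_int.1 hp).irreducible.coprime_iff_not_dvd).2 fun k => ne ?_
  rw [Finset.mem_range] at hi hj
  have := Int.eq_zero_of_dvd_of_natAbs_lt_natAbs k (by omega)
  omega

/-- a multiple of `m` that avoids the residues of `y` modulo the small prime powers -/
lemma crt (k : ℕ → ℕ) (y : ℕ → ℤ) (hy : ∀ p j : ℕ, p.Prime → p ≤ j + 2 → (p : ℤ) ^ k p ∣ y j)
    (m : ℤ) (N : ℕ) : ∃ t : ℤ, ∀ p < N, p.Prime → ¬ (p : ℤ) ^ k p ∣ m → ∀ j, ¬ (p : ℤ) ^ k p ∣ m * t - y j := by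
  induction N with
  | zero => simp
  | succ N ih =>
    obtain ⟨t, ht⟩ := ih
    by_cases h : N.Prime ∧ ¬ (N : ℤ) ^ k N ∣ m
    · let L : ℤ := ∏ p ∈ Finset.range N with p.Prime, (p : ℤ) ^ k p
      have hL : IsCoprime ((N : ℤ) ^ k N) L := IsCoprime.prod_right fun p hp => by
        rw [Finset.mem_filter, Finset.mem_range] at hp
        exact (Nat.isCoprime_iff_coprime.2 ((Nat.coprime_primes h.1 hp.2).2 hp.1.ne')).pow
      obtain ⟨i, hi⟩ := avoid h.1 (a := m * L) (fun e => h.2 (hL.dvd_of_dvd_mul_right e)) (m * t)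
        (insert 0 ((Finset.range (N - 2)).image y)) (by
          have := (Finset.card_insert_le 0 _).trans (Nat.succ_le_succ
            (Finset.card_image_le (s := Finset.range (N - 2)) (f := y)))
          have := h.1.two_le
          simp only [Finset.card_range] at *
          omega)
      refine ⟨L * i + t, fun p hp pp hm j e => ?_⟩
      rcases (Nat.lt_succ_iff.1 hp).eq_or_lt with rfl | hp
      · by_cases c : p ≤ j + 2
        · exact hi 0 (by simp) ((congrArg _ (by ring)).mp (dvd_add e (hy p j pp c)))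
        · exact hi (y j) (Finset.mem_insert_of_mem (Finset.mem_image_of_mem _ (by simp; omega)))
            ((congrArg _ (by ring)).mp e)
      · have : (p : ℤ) ^ k p ∣ L := Finset.dvd_prod_of_mem _ (by simp [hp, pp])
        exact ht p hp pp hm j
          ((congrArg _ (by ring)).mp (dvd_sub e ((this.mul_left m).mul_right i)))
    · refine ⟨t, fun p hp pp hm => ?_⟩
      rcases (Nat.lt_succ_iff.1 hp).eq_or_lt with rfl | hp
      · exact absurd ⟨pp, hm⟩ h
      · exact ht p hp pp hm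

lemma colour (f : ℕ → ℕ) : ∃ c : ℕ → Bool, ∀ p, f p < p → c p = !c (f p) := by
  refine ⟨fun p => Nat.strongRec (fun p ih => if h : f p < p then !ih _ h else true) p,
    fun p h => ?_⟩
  beta_reduce
  rw [Nat.strongRec_eq, dif_pos h]

theorem result (w : Ultrafilter ℤ) (hw : w ≠ pure 0) (hs : ∀ u v, Cong w u v → Cong w v u) :
    ∀ u v z, Cong w u v → Cong w v z → Cong w u z := by
  classical
  simp only [cong_iff] at *
  let D : ℤ → Prop := fun n => ∀ᶠ m in (w : Filter ℤ), n ∣ m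
  by_cases hD : ∀ᶠ n in (w : Filter ℤ), D n
  · intro u v z h1 h2 A hA hU
    obtain ⟨n, hn, hn'⟩ := (hD.and hA).exists
    filter_upwards [h1 _ hn fun a ha b hb => ha.trans hb] with x hx
    obtain ⟨y, hy, hy'⟩ := (hx.and (h2 _ hn fun a ha b hb => ha.trans hb)).exists
    filter_upwards [hy'] with t ht
    exact hU n hn' _ (by simpa using dvd_add hy ht)
  exfalso
  have h0 : ∀ᶠ m in (w : Filter ℤ), m ≠ 0 := Ultrafilter.eventually_not.2 fun h =>
    hw (Ultrafilter.coe_le_coe.1 (le_pure_iff.2 h))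
  -- critical exponents
  let P : ℕ → Prop := fun p => p.Prime ∧ ∃ e, ¬ D ((p : ℤ) ^ e)
  let k : ℕ → ℕ := fun p => if h : P p then Nat.find h.2 else 0
  have k1 {p} (h : P p) : ∀ᶠ m in (w : Filter ℤ), ¬ (p : ℤ) ^ k p ∣ m := by
    simp only [k, dif_pos h]
    exact Ultrafilter.eventually_not.2 (Nat.find_spec h.2)
  have k2 {p} (h : P p) : (p : ℤ) ∣ p ^ k p := dvd_pow_self _ fun e => by
    simpa [e] using (k1 h).exists
  have hq : ∀ m : ℤ, ∃ q, m ≠ 0 → ¬ D m → P q ∧ (q : ℤ) ^ k q ∣ m := by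
    intro m
    by_contra h
    push Not at h
    refine (h 0).2.1 ?_
    have : ∀ᶠ n in (w : Filter ℤ), ∀ p ∈ m.natAbs.primeFactors,
        (p : ℤ) ^ m.natAbs.factorization p ∣ n := by
      refine (eventually_all_finset _).2 fun p hp => by_contra fun c => ?_
      have hP : P p := ⟨Nat.prime_of_mem_primeFactors hp, _, c⟩
      refine (h p).2.2 hP ((pow_dvd_pow _ ?_).trans
        (show (p : ℤ) ^ m.natAbs.factorization p ∣ m by
          exact_mod_cast Int.natCast_dvd.2 (Nat.ordProj_dvd m.natAbs p)))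
      simp only [k, dif_pos hP]
      exact Nat.find_min' _ c
    filter_upwards [this, h0] with n hn n0
    rw [← Int.natAbs_dvd, Int.natCast_dvd,
      ← Nat.factorization_prime_le_iff_dvd (by simpa using (h 0).1) (by simpa)]
    intro p pp
    by_cases c : p ∈ m.natAbs.primeFactors
    · exact (pp.pow_dvd_iff_le_factorization (by simpa)).1
        (Int.natCast_dvd.1 (by exact_mod_cast hn p c))
    · simp [Finsupp.notMem_support_iff.1 (Nat.support_factorization _ ▸ c)]
  choose q hq using hq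
  let y : ℕ → ℤ := fun j => j.factorial * ∏ p ∈ Finset.range (j + 3) with p.Prime, (p : ℤ) ^ k p
  have y0 (j) : y j ≠ 0 := mul_ne_zero (by exact_mod_cast j.factorial_ne_zero)
    (Finset.prod_ne_zero_iff.2 fun p hp => pow_ne_zero _
      (by exact_mod_cast (Finset.mem_filter.1 hp).2.ne_zero))
  choose t ht using crt k y fun p j pp h =>
    (Finset.dvd_prod_of_mem _ (by simp [pp]; omega)).mul_left _
  obtain ⟨en, hen⟩ := exists_surjective_nat ℤ
  choose r hr using hen
  -- stages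
  let N : ℕ → ℕ := fun s => s.rec (q (en 0) + 1) fun s n => max (q (en (s + 1)) + 1)
    (n + 1 + ∑ j ∈ Finset.range (en s).natAbs, (en s * t (en s) n - y j).natAbs)
  have N1 (s) : q (en s) < N s := by cases s <;> simp [N]
  have N2 (s) : N s + 1 + ∑ j ∈ Finset.range (en s).natAbs,
    (en s * t (en s) (N s) - y j).natAbs ≤ N (s + 1) := le_max_right _ _
  have Nm : StrictMono N := strictMono_nat_of_lt_succ fun s => by have := N2 s; omega
  clear_value N
  obtain ⟨c, hc⟩ := colour fun p => if h : ∃ s, N s ≤ p ∧ p < N (s + 1) then q (en h.choose) else p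
  have hc' (s p) (h1 : N s ≤ p) (h2 : p < N (s + 1)) : c p = !c (q (en s)) := by
    have h : ∃ s, N s ≤ p ∧ p < N (s + 1) := ⟨s, h1, h2⟩
    have e : h.choose = s := by
      have a := Nm.lt_iff_lt.1 (h.choose_spec.1.trans_lt h2)
      have b := Nm.lt_iff_lt.1 (h1.trans_lt h.choose_spec.2)
      omega
    have := hc p
    rw [dif_pos h, e] at this
    exact this ((N1 s).trans_le h1)
  obtain ⟨b, hb⟩ : ∃ b, ∀ᶠ m in (w : Filter ℤ), c (q m) = b := by
    simpa [or_comm] using (Ultrafilter.eventually_or (f := w) (p := fun m => c (q m) = true)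
      (q := fun m => c (q m) = false)).1 (by simp)
  let x : ℤ → ℤ := fun m => m * t m (N (r m))
  have hD' := Ultrafilter.eventually_not.2 hD
  have := hs (w.map x) ((hyperfilter ℕ).map y) (fun A hA hU => by
    simp only [Ultrafilter.coe_map, eventually_map]
    filter_upwards [hA, h0] with m hm m0
    refine Eventually.filter_mono Nat.hyperfilter_le_atTop ?_
    filter_upwards [eventually_ge_atTop m.natAbs] with j hj
    refine hU m hm _ (dvd_sub (dvd_mul_right _ _) (Dvd.dvd.mul_right ?_ _))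
    rw [← Int.natAbs_dvd, Int.natCast_dvd_natCast]
    exact Nat.dvd_factorial (by omega) hj) {n | ∃ p, P p ∧ c p = b ∧ (p : ℤ) ^ k p ∣ n}
    (by
      filter_upwards [hb, h0, hD'] with m h1 h2 h3
      exact ⟨_, (hq m h2 h3).1, h1, (hq m h2 h3).2⟩)
    fun a ⟨p, h1, h2, h3⟩ n hn => ⟨p, h1, h2, h3.trans hn⟩
  simp only [Ultrafilter.coe_map, eventually_map] at this
  obtain ⟨j, hj⟩ := this.exists
  have g1 : ∀ᶠ m in (w : Filter ℤ), ∀ p ∈ (y j).natAbs.primeFactors, P p → ¬ (p : ℤ) ^ k p ∣ m :=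
    (eventually_all_finset _).2 fun p _ => by
      by_cases h : P p
      · exact (k1 h).mono fun _ e _ => e
      · simp [h]
  have g2 : ∀ᶠ m in (w : Filter ℤ), j < m.natAbs := by
    have : ∀ᶠ m in (w : Filter ℤ), ∀ n ∈ Finset.Icc (-(j : ℤ)) j, m ≠ n :=
      (eventually_all_finset _).2 fun n _ => Ultrafilter.eventually_not.2 fun h =>
        hD (h.mono fun a ha => h.mono fun a' ha' => by rw [ha, ha'])
    filter_upwards [this] with m hm
    by_contra c
    exact hm m (by simp; omega) rfl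
  obtain ⟨m, ⟨p, hP, hpc, hp⟩, m1, m2, m3, m4, m5⟩ :=
    (hj.and (g1.and (g2.and (hb.and (h0.and hD'))))).exists
  have g3 {p} (hP : P p) (hp : (p : ℤ) ^ k p ∣ y j - x m) : ¬ (p : ℤ) ^ k p ∣ m := fun e =>
    m1 p (Nat.mem_primeFactors.2 ⟨hP.1, Int.natCast_dvd.1 ((k2 hP).trans
      (by simpa [x] using dvd_add hp (e.mul_right (t m (N (r m)))))), by simpa using y0 j⟩) hP e
  have g4 : y j - x m ≠ 0 := fun e => g3 (hq m m4 m5).1 (by simp [e]) (hq m m4 m5).2
  have l1 : N (r m) ≤ p := not_lt.1 fun l => ht m _ p l hP.1 (g3 hP hp) j (dvd_sub_comm.1 hp)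
  have l2 : p < N (r m + 1) := by
    have a := N2 (r m)
    rw [hr] at a
    have b := Finset.single_le_sum (f := fun j => (m * t m (N (r m)) - y j).natAbs)
      (fun _ _ => Nat.zero_le _) (Finset.mem_range.2 m2)
    have := Nat.le_of_dvd (Int.natAbs_pos.2 (sub_ne_zero.2 (sub_ne_zero.1 g4).symm))
      (Int.natCast_dvd.1 ((k2 hP).trans (dvd_sub_comm.1 hp)))
    simp only [x] at this
    omega
  have := hc' _ p l1 l2
  rw [hr, hpc, m3] at this
  simp at this

end Pool.Agent.Results.MP_6ac782_lc.SymmTrans
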